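import Pool.Agent.S13329
import Pool.Agent.H70.M4.Orth

/-!
MP_6c826d_gt: the fewest facets of a compact right-angled polytope in hyperbolic 4-space is 120.
-/

set_option autoImplicit false

namespace Pool.Agent.Results.MP_6c826d_gt.FewestFacets

/-- the Lorentzian inner product of `ℝ^5` (coordinate `0` is the time coordinate) -/
def lor (x y : Fin 5 → ℝ) : ℝ := -(x 0 * y 0) + x 1 * y 1 + x 2 * y 2 + x 3 * y 3 + x 4 * y 4

/-- hyperbolic 4-space: the upper sheet of the hyperboloid -/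
def H4 : Set (Fin 5 → ℝ) := {x | lor x x = -1 ∧ 0 < x 0}

/-- the points of `H4` on the non-positive side of the vector `e`; for `lor e e > 0` this is a
closed half-space with outward normal `e` -/
def halfSpace (e : Fin 5 → ℝ) : Set (Fin 5 → ℝ) := {x | x ∈ H4 ∧ lor x e ≤ 0}

/-- convex polytope: an intersection of finitely many closed half-spaces of `H4` with non-empty
interior (in `H4`) -/
def IsPolytope (P : Set (Fin 5 → ℝ)) : Prop :=
  (∃ A : Finset (Fin 5 → ℝ), (∀ e ∈ A, 0 < lor e e) ∧ P = H4 ∩ ⋂ e ∈ A, halfSpace e) ∧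
    ∃ U : Set (Fin 5 → ℝ), IsOpen U ∧ (U ∩ H4).Nonempty ∧ U ∩ H4 ⊆ P

/-- `e` is a unit vector and `P` lies in the closed half-space with outward normal `e` -/
def Bounds (P : Set (Fin 5 → ℝ)) (e : Fin 5 → ℝ) : Prop := lor e e = 1 ∧ P ⊆ halfSpace e

/-- the points of `P` on the hyperplane orthogonal to `e` -/
def face (P : Set (Fin 5 → ℝ)) (e : Fin 5 → ℝ) : Set (Fin 5 → ℝ) := {x | x ∈ P ∧ lor x e = 0}

/-- the set `F` has dimension `d` in `H4`: its linear span in `ℝ^5` has dimension `d + 1` -/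
def HasDim (F : Set (Fin 5 → ℝ)) (d : ℕ) : Prop :=
  Module.finrank ℝ (Submodule.span ℝ F) = d + 1

/-- the facets of `P`: its faces of dimension 3 -/
def facets (P : Set (Fin 5 → ℝ)) : Set (Set (Fin 5 → ℝ)) :=
  {F | ∃ e, Bounds P e ∧ F = face P e ∧ HasDim F 3}

/-- the dihedral angle of two facets with outward unit normals `e`, `f` -/
noncomputable def dihedral (e f : Fin 5 → ℝ) : ℝ := Real.arccos (-lor e f)

/-- right-angled: any two facets which meet along a 2-dimensional face form the angle `π / 2` -/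
def RightAngled (P : Set (Fin 5 → ℝ)) : Prop :=
  ∀ e f, Bounds P e → Bounds P f → HasDim (face P e) 3 → HasDim (face P f) 3 →
    face P e ≠ face P f → HasDim (face P e ∩ face P f) 2 → dihedral e f = Real.pi / 2

open Finset Filter Topology Pool.Agent.H62.M4 Pool.Agent.H70.M4

theorem lor_eq : lor = B := rfl

theorem H4_eq : H4 = Hy := rfl

theorem bounds_iff {P : Set (Fin 5 → ℝ)} (hP : P ⊆ H4) {e : Fin 5 → ℝ} :
    Bounds P e ↔ Supp P e :=
  ⟨fun h => ⟨h.1, fun _ hx => (h.2 hx).2⟩, fun h => ⟨h.1, fun x hx => ⟨hP hx, h.2 x hx⟩⟩⟩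

theorem face_eq (P : Set (Fin 5 → ℝ)) (e : Fin 5 → ℝ) : face P e = fc P e := rfl

theorem facets_eq {P : Set (Fin 5 → ℝ)} (hP : P ⊆ H4) : facets P = Fct P := by
  ext F
  constructor
  · rintro ⟨e, h1, h2, h3⟩
    exact ⟨e, (bounds_iff hP).1 h1, h2, h3⟩
  · rintro ⟨e, h1, h2, h3⟩
    exact ⟨e, (bounds_iff hP).2 h1, h2, h3⟩

/-- an interior point lies strictly inside every half-space which contains the set -/
theorem strict {U : Set (Fin 5 → ℝ)} (hU : IsOpen U) {z f : Fin 5 → ℝ} (hz : z ∈ U)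
    (hzH : z ∈ Hy) (hf : 0 < B f f) (hle : ∀ x ∈ U, x ∈ Hy → B x f ≤ 0) : B z f < 0 := by
  refine lt_of_le_of_ne (hle z hz hzH) fun h0 => ?_
  have hz0 : z + (0 : ℝ) • f = z := by rw [zero_smul, add_zero]
  have hc1 : Continuous fun t : ℝ => -B (z + t • f) (z + t • f) :=
    (contBB.comp (path_cont z f)).neg
  have hc2 : Continuous fun t : ℝ => Real.sqrt (-B (z + t • f) (z + t • f)) :=
    Real.continuous_sqrt.comp hc1
  have hne : Real.sqrt (-B (z + (0 : ℝ) • f) (z + (0 : ℝ) • f)) ≠ 0 := by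
    rw [hz0, hzH.1]
    norm_num
  have hc3 : ContinuousAt (fun t : ℝ => (Real.sqrt (-B (z + t • f) (z + t • f)))⁻¹ • (z + t • f))
      0 := (hc2.continuousAt.inv₀ hne).smul (path_cont z f).continuousAt
  have hval : (Real.sqrt (-B (z + (0 : ℝ) • f) (z + (0 : ℝ) • f)))⁻¹ • (z + (0 : ℝ) • f) = z := by
    rw [hz0, hzH.1]
    norm_num
  have h1 : ∀ᶠ t in 𝓝 (0 : ℝ),
      (Real.sqrt (-B (z + t • f) (z + t • f)))⁻¹ • (z + t • f) ∈ U := by
    refine hc3.eventually_mem ?_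
    rw [hval]
    exact hU.mem_nhds hz
  have h2 := K_open (hy_K hzH) f
  have h3 : ∀ᶠ t in 𝓝[>] (0 : ℝ), (Real.sqrt (-B (z + t • f) (z + t • f)))⁻¹ • (z + t • f) ∈ U ∧
      z + t • f ∈ K := (h1.and h2).filter_mono nhdsWithin_le_nhds
  have h4 : ∀ᶠ t in 𝓝[>] (0 : ℝ), (0 : ℝ) < t := eventually_mem_nhdsWithin
  obtain ⟨t, ht, htU, htK⟩ := (h4.and h3).exists
  have hs : 0 < Real.sqrt (-B (z + t • f) (z + t • f)) := Real.sqrt_pos.2 (by linarith [htK.1])
  have hcH : (Real.sqrt (-B (z + t • f) (z + t • f)))⁻¹ • (z + t • f) ∈ Hy := by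
    refine ⟨?_, ?_⟩
    · rw [B_smul_left, B_smul_right]
      have h5 : Real.sqrt (-B (z + t • f) (z + t • f)) ^ 2 = -B (z + t • f) (z + t • f) :=
        Real.sq_sqrt (by linarith [htK.1])
      have h6 : B (z + t • f) (z + t • f) =
          -Real.sqrt (-B (z + t • f) (z + t • f)) ^ 2 := by linarith
      set r := Real.sqrt (-B (z + t • f) (z + t • f)) with hr
      rw [h6]
      field_simp
    · rw [Pi.smul_apply, smul_eq_mul]
      exact mul_pos (inv_pos.2 hs) htK.2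
  have h5 := hle _ htU hcH
  have h7 : B (z + t • f) f = t * B f f := by
    rw [B_add_left, B_smul_left, h0, zero_add]
  rw [B_smul_left, h7] at h5
  have h6 : 0 < (Real.sqrt (-B (z + t • f) (z + t • f)))⁻¹ * (t * B f f) :=
    mul_pos (inv_pos.2 hs) (mul_pos ht hf)
  linarith

/-- every polytope has an irredundant family of unit normals -/
theorem exists_irr {P : Set (Fin 5 → ℝ)} (h : IsPolytope P) :
    ∃ (n : ℕ) (e : Fin n → V5) (z : V5), Irr P e z := by
  classical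
  obtain ⟨⟨A, hA, hPA⟩, U, hU, ⟨z, hzU, hzH⟩, hUP⟩ := h
  have hmem : ∀ x, x ∈ P ↔ x ∈ Hy ∧ ∀ f ∈ A, B x f ≤ 0 := by
    intro x
    rw [hPA]
    simp only [Set.mem_inter_iff, Set.mem_iInter, halfSpace, Set.mem_ofPred_eq]
    exact ⟨fun hx => ⟨hx.1, fun f hf => (hx.2 f hf).2⟩,
      fun hx => ⟨hx.1, fun f hf => ⟨hx.1, hx.2 f hf⟩⟩⟩
  have hzA : ∀ f ∈ A, B z (id f) < 0 := fun f hf =>
    strict hU hzU hzH (hA f hf) fun x hx hxH => ((hmem x).1 (hUP ⟨hx, hxH⟩)).2 f hf
  obtain ⟨T, hTA, hT1, hT2⟩ := min_sub (id : V5 → V5) A ⊤ hzH Submodule.mem_top hzA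
  have hTpos : ∀ f ∈ T, 0 < B f f := fun f hf => hA f (hTA hf)
  set g : Fin T.card → V5 := fun i => (T.equivFin.symm i : V5) with hg
  have hgT : ∀ i, g i ∈ T := fun i => (T.equivFin.symm i).2
  have hginj : ∀ i j, g i = g j → i = j := fun i j hij =>
    T.equivFin.symm.injective (Subtype.ext hij)
  have hgsurj : ∀ f ∈ T, ∃ i, g i = f := fun f hf =>
    ⟨T.equivFin ⟨f, hf⟩, by rw [hg]; simp⟩
  set s : Fin T.card → ℝ := fun i => (Real.sqrt (B (g i) (g i)))⁻¹ with hs
  have hspos : ∀ i, 0 < s i := fun i => inv_pos.2 (Real.sqrt_pos.2 (hTpos _ (hgT i)))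
  have hle : ∀ x i, B x (s i • g i) ≤ 0 ↔ B x (g i) ≤ 0 := by
    intro x i
    rw [B_smul_right]
    constructor
    · intro hx
      by_contra hcon
      push Not at hcon
      have := mul_pos (hspos i) hcon
      linarith
    · intro hx
      exact mul_nonpos_of_nonneg_of_nonpos (hspos i).le hx
  refine ⟨T.card, fun i => s i • g i, z, ?_, ?_, ⟨hzH, fun i => ?_⟩, fun i => ?_⟩
  · intro i
    rw [B_smul_left, B_smul_right]
    have h1 : 0 < B (g i) (g i) := hTpos _ (hgT i)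
    have h2 : Real.sqrt (B (g i) (g i)) ^ 2 = B (g i) (g i) := Real.sq_sqrt h1.le
    have h3 : 0 < Real.sqrt (B (g i) (g i)) := Real.sqrt_pos.2 h1
    show (Real.sqrt (B (g i) (g i)))⁻¹ * ((Real.sqrt (B (g i) (g i)))⁻¹ * B (g i) (g i)) = 1
    field_simp
    linarith
  · ext x
    rw [hmem, Set.mem_ofPred_eq]
    refine and_congr_right fun hx => ?_
    constructor
    · intro h1 i
      exact (hle x i).2 (h1 _ (hTA (hgT i)))
    · intro h1
      exact hT1 x hx Submodule.mem_top fun f hf => by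
        obtain ⟨i, hi⟩ := hgsurj f hf
        have := (hle x i).1 (h1 i)
        rw [hi] at this
        exact this
  · rw [B_smul_right]
    exact mul_neg_of_pos_of_neg (hspos i) (hzA _ (hTA (hgT i)))
  · obtain ⟨w, hw, _, hwi, hwj⟩ := hT2 (g i) (hgT i)
    refine ⟨w, hw, ?_, fun j hj => ?_⟩
    · rw [B_smul_right]
      have : B w (g i) = 0 := hwi
      rw [this, mul_zero]
    · rw [B_smul_right]
      exact mul_neg_of_pos_of_neg (hspos j) (hwj (g j) (hgT j) fun hh => hj (hginj _ _ hh))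

/-- the least number of facets of a compact right-angled polytope in hyperbolic 4-space is 120 -/
theorem result : IsLeast {n : ℕ | ∃ P : Set (Fin 5 → ℝ), IsPolytope P ∧ IsCompact P ∧
    RightAngled P ∧ (facets P).ncard = n} 120 := by
  classical
  constructor
  · obtain ⟨e, h⟩ := exists120
    set P : Set (Fin 5 → ℝ) := {x | x ∈ Hy ∧ ∀ i, B x (e i) ≤ 0} with hP
    have hPH : P ⊆ H4 := fun x hx => hx.1
    -- an interior point
    choose x hx1 hx2 hx3 hx4 using h.gen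
    have hxH : ∀ i, x i ∈ Hy := fun i => ⟨hx1 i, hx2 i⟩
    have hxle : ∀ i j, B (x i) (e j) ≤ 0 := fun i j => by
      by_cases hij : j = i
      · rw [hij, hx3]
      · exact (hx4 i j hij).le
    have hyK : x 0 + ∑ i, x i ∈ K := K_sum univ x (hy_K (hxH 0)) fun i _ => hy_K (hxH i)
    have hyj : ∀ j, B (x 0 + ∑ i, x i) (e j) < 0 := by
      intro j
      rw [B_add_left, B_sum]
      have h1 := hxle 0 j
      have h2 : ∑ i, B (x i) (e j) < 0 := by
        obtain ⟨i, hi⟩ : ∃ i : Fin 120, j ≠ i := by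
          by_cases hj : j = 0
          · exact ⟨1, by rw [hj]; decide⟩
          · exact ⟨0, hj⟩
        exact Finset.sum_neg' (fun i _ => hxle i j) ⟨i, mem_univ i, hx4 i j hi⟩
      linarith
    obtain ⟨c, hc, hcH⟩ := K_norm hyK
    have hint : ∀ j, B (c • (x 0 + ∑ i, x i)) (e j) < 0 := fun j => by
      rw [B_smul_left]
      exact mul_neg_of_pos_of_neg hc (hyj j)
    have hIrr : Irr P e (c • (x 0 + ∑ i, x i)) :=
      ⟨h.norm, hP, ⟨hcH, hint⟩, fun i => ⟨x i, hxH i, hx3 i, hx4 i⟩⟩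
    refine ⟨P, ⟨⟨univ.image e, ?_, ?_⟩, ⋂ i, {y | B y (e i) < 0}, ?_, ⟨_, ?_, hcH⟩, ?_⟩, ?_, ?_, ?_⟩
    · intro f hf
      obtain ⟨i, _, rfl⟩ := mem_image.1 hf
      rw [lor_eq, h.norm]
      exact one_pos
    · ext y
      simp only [hP, Set.mem_inter_iff, Set.mem_iInter, halfSpace, Set.mem_ofPred_eq]
      constructor
      · intro hy
        refine ⟨hy.1, fun f hf => ⟨hy.1, ?_⟩⟩
        obtain ⟨i, _, rfl⟩ := mem_image.1 hf
        exact hy.2 i
      · intro hy
        exact ⟨hy.1, fun i => (hy.2 _ (mem_image_of_mem e (mem_univ i))).2⟩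
    · exact isOpen_iInter_of_finite fun i => isOpen_lt (contB (e i)) continuous_const
    · rw [Set.mem_iInter]
      exact hint
    · rintro y ⟨hy1, hy2⟩
      rw [Set.mem_iInter] at hy1
      exact ⟨hy2, fun i => (hy1 i).le⟩
    · have : P = {x : V5 | B x x = -1 ∧ 0 < x 0 ∧ ∀ i, B x (e i) ≤ 0} := by
        ext y
        exact ⟨fun hy => ⟨hy.1.1, hy.1.2, hy.2⟩, fun hy => ⟨⟨hy.1, hy.2.1⟩, hy.2.2⟩⟩
      rw [this]
      exact h.cpt
    · intro f g hf hg hf3 hg3 hne h2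
      obtain ⟨i, rfl⟩ := hIrr.normal ((bounds_iff hPH).1 hf) hf3
      obtain ⟨j, rfl⟩ := hIrr.normal ((bounds_iff hPH).1 hg) hg3
      have hij : i ≠ j := fun hh => hne (by rw [hh])
      have hne2 : (face P (e i) ∩ face P (e j)).Nonempty := by
        rw [Set.nonempty_iff_ne_empty]
        intro h0
        unfold HasDim at h2
        rw [h0, Submodule.span_empty, finrank_bot] at h2
        omega
      obtain ⟨y, hy1, hy2⟩ := hne2
      have h3 := h.right i j hij ⟨y, hy1.1.1.1, hy1.1.1.2, hy1.1.2, hy1.2, hy2.2⟩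
      unfold dihedral
      rw [Real.arccos_eq_pi_div_two, lor_eq, h3, neg_zero]
    · rw [facets_eq hPH]
      exact hIrr.ncard
  · rintro n ⟨P, hP, hcpt, hR, rfl⟩
    obtain ⟨n, e, z, h⟩ := exists_irr hP
    have hPH : P ⊆ H4 := fun x hx => (h.mem.1 hx).1
    have hRA : RAng P := by
      intro f g hf hg hf3 hg3 hne h2
      have h1 := hR f g ((bounds_iff hPH).2 hf) ((bounds_iff hPH).2 hg) hf3 hg3 hne h2
      unfold dihedral at h1
      rw [Real.arccos_eq_pi_div_two, neg_eq_zero] at h1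
      exact h1
    rw [facets_eq hPH, h.ncard]
    refine Pool.Agent.S13329.lower e ⟨h.norm, ?_, ?_, ?_⟩
    · have : {x : V5 | B x x = -1 ∧ 0 < x 0 ∧ ∀ i, B x (e i) ≤ 0} = P := by
        ext y
        rw [h.mem]
        exact ⟨fun hy => ⟨⟨hy.1, hy.2.1⟩, hy.2.2⟩, fun hy => ⟨hy.1.1, hy.1.2, hy.2⟩⟩
      rw [this]
      exact hcpt
    · intro i
      obtain ⟨x, hx, hx1, hx2⟩ := h.gen i
      exact ⟨x, hx.1, hx.2, hx1, hx2⟩
    · rintro i j hij ⟨x, hx1, hx2, hx3, hx4, hx5⟩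
      exact h.meet hRA hij (h.mem.2 ⟨⟨hx1, hx2⟩, hx3⟩) hx4 hx5

end Pool.Agent.Results.MP_6c826d_gt.FewestFacets
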